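import Mathlib
import Pool.Agent.W811.Stu.Stmts

/-!
Project STURM (helper811): measurability of the Hausdorff dimension of nested compact sets which
depend on the continued fraction digits.
-/

set_option autoImplicit false

open MeasureTheory Filter Topology
open scoped ENNReal NNReal
open Pool.Agent.W811.Stu

namespace Pool.Agent.W340.SD

theorem measurable_gauss : Measurable gauss := by
  unfold gauss
  exact measurable_fract.comp measurable_inv

theorem measurable_dig (k : ℕ) : Measurable (fun α => dig α k) := by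
  unfold dig
  exact Nat.measurable_floor.comp ((measurable_gauss.iterate k).inv)

theorem measurable_base : MeasurableSet {α : ℝ | Irrational α ∧ α ∈ Set.Ioo (0:ℝ) 1} := by
  have h1 : MeasurableSet {α : ℝ | Irrational α} := by
    have : {α : ℝ | Irrational α} = (Set.range ((↑) : ℚ → ℝ))ᶜ := rfl
    rw [this]; exact (Set.countable_range _).measurableSet.compl
  exact h1.inter measurableSet_Ioo

theorem meas_one (C : ℕ → (ℕ → ℕ) → Set ℝ)
    (hC3 : ∀ n d d', (∀ k < n, d k = d' k) → C n d = C n d') (n : ℕ) (U : Set ℝ) :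
    MeasurableSet {α : ℝ | C n (dig α) ⊆ U} := by
  let f : ℝ → (Fin n → ℕ) := fun α i => dig α i
  have hf : Measurable f := measurable_pi_lambda _ (fun i => measurable_dig i)
  let S : Set (Fin n → ℕ) := {e | C n (fun k => if h : k < n then e ⟨k, h⟩ else 0) ⊆ U}
  have h1 : {α : ℝ | C n (dig α) ⊆ U} = f ⁻¹' S := by
    ext α
    have h2 : C n (dig α) = C n (fun k => if h : k < n then f α ⟨k, h⟩ else 0) := by
      apply hC3
      intro k hk
      rw [dif_pos hk]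
    show C n (dig α) ⊆ U ↔ C n (fun k => if h : k < n then f α ⟨k, h⟩ else 0) ⊆ U
    rw [h2]
  rw [h1]
  exact hf (S.to_countable.measurableSet)

theorem iInter_subset_iff (C : ℕ → Set ℝ) (hc : ∀ n, IsCompact (C n))
    (hd : ∀ n, C (n + 1) ⊆ C n) (U : Set ℝ) (hU : IsOpen U) :
    (⋂ n, C n) ⊆ U ↔ ∃ n, C n ⊆ U := by
  constructor
  · intro h
    have ha : Antitone C := antitone_nat_of_succ_le hd
    refine exists_subset_nhds_of_isCompact (V := C) ?_ hc fun x hx => hU.mem_nhds (h hx)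
    intro i j
    exact ⟨max i j, ha (le_max_left _ _), ha (le_max_right _ _)⟩
  · rintro ⟨n, hn⟩
    exact (Set.iInter_subset _ n).trans hn

/-- measurability of the set of parameters for which the limit set is in a given open set -/
theorem meas_subset (C : ℕ → (ℕ → ℕ) → Set ℝ)
    (hC1 : ∀ n d, IsCompact (C n d)) (hC2 : ∀ n d, C (n + 1) d ⊆ C n d)
    (hC3 : ∀ n d d', (∀ k < n, d k = d' k) → C n d = C n d') (U : Set ℝ) (hU : IsOpen U) :
    MeasurableSet {α : ℝ | Irrational α ∧ α ∈ Set.Ioo (0:ℝ) 1 ∧ (⋂ n, C n (dig α)) ⊆ U} := by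
  have h1 : {α : ℝ | Irrational α ∧ α ∈ Set.Ioo (0:ℝ) 1 ∧ (⋂ n, C n (dig α)) ⊆ U} =
      {α : ℝ | Irrational α ∧ α ∈ Set.Ioo (0:ℝ) 1} ∩ ⋃ n, {α : ℝ | C n (dig α) ⊆ U} := by
    ext α
    simp only [Set.mem_ofPred_eq, Set.mem_inter_iff, Set.mem_iUnion]
    rw [iInter_subset_iff (fun n => C n (dig α)) (fun n => hC1 n _) (fun n => hC2 n _) U hU]
    tauto
  rw [h1]
  exact measurable_base.inter (MeasurableSet.iUnion fun n => meas_one C hC3 n U)

/-- the weight of a finite family of intervals -/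
noncomputable def wt (s : ℝ) (F : Finset (ℚ × ℚ)) : ℝ≥0∞ :=
  ∑ p ∈ F, ENNReal.ofReal ((p.2 : ℝ) - p.1) ^ s

/-- the union of a finite family of intervals -/
def UF (F : Finset (ℚ × ℚ)) : Set ℝ := ⋃ p ∈ F, Set.Ioo (p.1 : ℝ) p.2

theorem isOpen_UF (F : Finset (ℚ × ℚ)) : IsOpen (UF F) :=
  isOpen_biUnion fun _ _ => isOpen_Ioo

theorem exists_interval (T : Set ℝ) (hT : Metric.ediam T ≤ 1) {s : ℝ} (hs : 0 < s) {e : ℝ≥0∞}
    (he : 0 < e) : ∃ a b : ℚ, T ⊆ Set.Ioo (a : ℝ) b ∧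
      ENNReal.ofReal ((b : ℝ) - a) ^ s ≤ 2 ^ s * (⨆ _ : T.Nonempty, Metric.ediam T ^ s) + e := by
  rcases T.eq_empty_or_nonempty with hE | hN
  · refine ⟨0, 0, by rw [hE]; exact Set.empty_subset _, ?_⟩
    rw [sub_self, ENNReal.ofReal_zero, ENNReal.zero_rpow_of_pos hs]
    exact bot_le
  obtain ⟨x, hx⟩ := hN
  have hN : T.Nonempty := ⟨x, hx⟩
  have htop : Metric.ediam T ≠ ⊤ := ne_top_of_le_ne_top ENNReal.one_ne_top hT
  set δ : ℝ := (Metric.ediam T).toReal with hδ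
  have hδ0 : 0 ≤ δ := ENNReal.toReal_nonneg
  have hδe : ENNReal.ofReal δ = Metric.ediam T := ENNReal.ofReal_toReal htop
  have hsub : ∀ y ∈ T, |y - x| ≤ δ := by
    intro y hy
    have h1 : edist y x ≤ Metric.ediam T := Metric.edist_le_ediam_of_mem hy hx
    rw [edist_dist, Real.dist_eq] at h1
    have h2 := ENNReal.toReal_mono htop h1
    rwa [ENNReal.toReal_ofReal (abs_nonneg _)] at h2
  have hcont : Continuous fun η : ℝ => ENNReal.ofReal (2 * δ + η) ^ s :=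
    (ENNReal.continuous_rpow_const).comp (ENNReal.continuous_ofReal.comp
      (continuous_const.add continuous_id))
  have hlt : ENNReal.ofReal (2 * δ + 0) ^ s < ENNReal.ofReal (2 * δ + 0) ^ s + e := by
    apply ENNReal.lt_add_right _ he.ne'
    exact (ENNReal.rpow_lt_top_of_nonneg hs.le ENNReal.ofReal_ne_top).ne
  have hev : ∀ᶠ η : ℝ in 𝓝 0, ENNReal.ofReal (2 * δ + η) ^ s < ENNReal.ofReal (2 * δ + 0) ^ s + e :=
    (hcont.tendsto 0).eventually (gt_mem_nhds hlt)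
  obtain ⟨η, hη0, hη⟩ : ∃ η : ℝ, 0 < η ∧
      ENNReal.ofReal (2 * δ + η) ^ s < ENNReal.ofReal (2 * δ + 0) ^ s + e := by
    have h3 : ∀ᶠ η : ℝ in 𝓝[>] 0,
        ENNReal.ofReal (2 * δ + η) ^ s < ENNReal.ofReal (2 * δ + 0) ^ s + e :=
      hev.filter_mono nhdsWithin_le_nhds
    obtain ⟨η, h4, h5⟩ := (h3.and self_mem_nhdsWithin).exists
    exact ⟨η, h5, h4⟩
  obtain ⟨a, ha1, ha2⟩ := exists_rat_btwn (show x - δ - η / 2 < x - δ by linarith)
  obtain ⟨b, hb1, hb2⟩ := exists_rat_btwn (show x + δ < x + δ + η / 2 by linarith)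
  refine ⟨a, b, ?_, ?_⟩
  · intro y hy
    have := abs_le.1 (hsub y hy)
    exact ⟨by linarith [this.1], by linarith [this.2]⟩
  · have h1 : ENNReal.ofReal ((b : ℝ) - a) ^ s ≤ ENNReal.ofReal (2 * δ + η) ^ s :=
      ENNReal.rpow_le_rpow (ENNReal.ofReal_le_ofReal (by linarith)) hs.le
    have h2 : ENNReal.ofReal (2 * δ + 0) ^ s = 2 ^ s * Metric.ediam T ^ s := by
      rw [add_zero, ENNReal.ofReal_mul (by norm_num), hδe, ENNReal.mul_rpow_of_nonneg _ _ hs.le]
      norm_num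
    rw [ciSup_pos hN, ← h2]
    exact h1.trans hη.le

theorem null_iff {K : Set ℝ} (hK : IsCompact K) {s : ℝ} (hs : 0 < s) :
    μH[s] K = 0 ↔ ∀ j : ℕ, ∃ F : Finset (ℚ × ℚ), wt s F < ((j : ℝ≥0∞) + 1)⁻¹ ∧ K ⊆ UF F := by
  classical
  constructor
  · intro h j
    set ε : ℝ≥0∞ := ((j : ℝ≥0∞) + 1)⁻¹ with hε
    have hε0 : ε ≠ 0 := by
      rw [hε]
      exact ENNReal.inv_ne_zero.2 (by simp)
    have h2s : (2 : ℝ≥0∞) ^ s ≠ 0 := by
      rw [Ne, ENNReal.rpow_eq_zero_iff]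
      simp [hs.le]
    have h2s' : (2 : ℝ≥0∞) ^ s ≠ ⊤ := (ENNReal.rpow_lt_top_of_nonneg hs.le ENNReal.ofNat_ne_top).ne
    have hε1 : 0 < ε / 2 / 2 ^ s := ENNReal.div_pos (ENNReal.half_pos hε0).ne' h2s'
    rw [Measure.hausdorffMeasure_apply] at h
    have h1 : (⨅ (t : ℕ → Set ℝ) (_ : K ⊆ ⋃ n, t n) (_ : ∀ n, Metric.ediam (t n) ≤ 1),
        ∑' n, ⨆ _ : (t n).Nonempty, Metric.ediam (t n) ^ s) < ε / 2 / 2 ^ s := by
      refine lt_of_le_of_lt ?_ hε1
      rw [← h]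
      exact le_iSup₂_of_le (1 : ℝ≥0∞) zero_lt_one le_rfl
    simp only [iInf_lt_iff] at h1
    obtain ⟨t, ht1, ht2, ht3⟩ := h1
    obtain ⟨e, he0, he⟩ := ENNReal.exists_pos_sum_of_countable' (ENNReal.half_pos hε0).ne' ℕ
    have hint := fun n => exists_interval (t n) (ht2 n) hs (he0 n)
    choose a b hab1 hab2 using hint
    obtain ⟨T, hT⟩ := hK.elim_finite_subcover (fun n => Set.Ioo (a n : ℝ) (b n))
      (fun n => isOpen_Ioo) (ht1.trans (Set.iUnion_mono hab1))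
    refine ⟨T.image (fun n => (a n, b n)), ?_, ?_⟩
    · have h2 : wt s (T.image (fun n => (a n, b n))) ≤
          ∑ n ∈ T, ENNReal.ofReal ((b n : ℝ) - a n) ^ s := by
        unfold wt
        exact Finset.sum_image_le_of_nonneg (f := fun p : ℚ × ℚ =>
          ENNReal.ofReal ((p.2 : ℝ) - p.1) ^ s) (g := fun n => (a n, b n)) (fun _ _ => bot_le)
      refine h2.trans_lt ?_
      calc ∑ n ∈ T, ENNReal.ofReal ((b n : ℝ) - a n) ^ s
          ≤ ∑ n ∈ T, (2 ^ s * (⨆ _ : (t n).Nonempty, Metric.ediam (t n) ^ s) + e n) :=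
            Finset.sum_le_sum fun n _ => hab2 n
        _ ≤ ∑' n, (2 ^ s * (⨆ _ : (t n).Nonempty, Metric.ediam (t n) ^ s) + e n) :=
            ENNReal.sum_le_tsum T
        _ = 2 ^ s * (∑' n, ⨆ _ : (t n).Nonempty, Metric.ediam (t n) ^ s) + ∑' n, e n := by
            rw [ENNReal.tsum_add, ENNReal.tsum_mul_left]
        _ < ε / 2 + ε / 2 := by
            apply ENNReal.add_lt_add _ he
            rw [ENNReal.lt_div_iff_mul_lt (Or.inl h2s) (Or.inl h2s')] at ht3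
            rwa [mul_comm]
        _ = ε := ENNReal.add_halves ε
    · intro x hx
      have := hT hx
      simp only [Set.mem_iUnion] at this
      obtain ⟨n, hn, hxn⟩ := this
      unfold UF
      simp only [Set.mem_iUnion]
      exact ⟨(a n, b n), Finset.mem_image_of_mem _ hn, hxn⟩
  · intro h
    choose F hF1 hF2 using h
    have hlim : Tendsto (fun j : ℕ => ((j : ℝ≥0∞) + 1)⁻¹) atTop (𝓝 0) := by
      have := (tendsto_add_atTop_iff_nat 1).2 ENNReal.tendsto_inv_nat_nhds_zero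
      simpa using this
    have hr : Tendsto (fun j : ℕ => (((j : ℝ≥0∞) + 1)⁻¹) ^ s⁻¹) atTop (𝓝 0) := by
      have h1 := (ENNReal.continuous_rpow_const (y := s⁻¹)).tendsto (0 : ℝ≥0∞)
      rw [ENNReal.zero_rpow_of_pos (inv_pos.2 hs)] at h1
      exact h1.comp hlim
    have hle := Measure.hausdorffMeasure_le_liminf_sum (β := ℕ) (ι := fun j => {p // p ∈ F j}) s K
      (l := atTop) (fun j : ℕ => (((j : ℝ≥0∞) + 1)⁻¹) ^ s⁻¹) hr
      (fun j p => Set.Ioo (p.1.1 : ℝ) p.1.2) (Eventually.of_forall fun j p => by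
        rw [Real.ediam_Ioo, ENNReal.le_rpow_inv_iff hs]
        refine le_trans ?_ (hF1 j).le
        unfold wt
        exact Finset.single_le_sum (f := fun p : ℚ × ℚ => ENNReal.ofReal ((p.2 : ℝ) - p.1) ^ s)
          (fun _ _ => bot_le) p.2)
      (Eventually.of_forall fun j => by
        intro x hx
        have := hF2 j hx
        unfold UF at this
        simp only [Set.mem_iUnion] at this ⊢
        obtain ⟨p, hp, hxp⟩ := this
        exact ⟨⟨p, hp⟩, hxp⟩)
    have hlim2 : Tendsto (fun j : ℕ => ∑ p : {p // p ∈ F j},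
        Metric.ediam (Set.Ioo (p.1.1 : ℝ) p.1.2) ^ s) atTop (𝓝 0) := by
      refine tendsto_of_tendsto_of_tendsto_of_le_of_le tendsto_const_nhds hlim
        (fun _ => bot_le) (fun j => ?_)
      refine le_trans (le_of_eq ?_) (hF1 j).le
      unfold wt
      rw [← Finset.sum_coe_sort (F j)]
      simp only [Real.ediam_Ioo]
    rw [hlim2.liminf_eq] at hle
    exact le_antisymm hle bot_le

/-- TMeas -/
theorem tMeas : TMeas := by
  intro C hC1 hC2 hC3 t
  rcases eq_or_ne t 0 with ht | ht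
  · have h1 : {α : ℝ | Irrational α ∧ α ∈ Set.Ioo (0:ℝ) 1 ∧ t ≤ dimH (⋂ n, C n (dig α))} =
        {α : ℝ | Irrational α ∧ α ∈ Set.Ioo (0:ℝ) 1} := by
      ext α
      simp only [Set.mem_ofPred_eq, ht, zero_le, and_true]
    rw [h1]
    exact measurable_base
  have hcomp : ∀ α, IsCompact (⋂ n, C n (dig α)) := by
    intro α
    exact (hC1 0 _).of_isClosed_subset (isClosed_iInter fun n => (hC1 n _).isClosed)
      (Set.iInter_subset _ 0)
  -- the parameters for which the measure vanishes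
  have hnull : ∀ s : ℝ, 0 < s →
      MeasurableSet {α : ℝ | (Irrational α ∧ α ∈ Set.Ioo (0:ℝ) 1) ∧ μH[s] (⋂ n, C n (dig α)) = 0} := by
    intro s hs
    have h1 : {α : ℝ | (Irrational α ∧ α ∈ Set.Ioo (0:ℝ) 1) ∧ μH[s] (⋂ n, C n (dig α)) = 0} =
        ⋂ j : ℕ, ⋃ F : {F : Finset (ℚ × ℚ) // wt s F < ((j : ℝ≥0∞) + 1)⁻¹},
          {α : ℝ | Irrational α ∧ α ∈ Set.Ioo (0:ℝ) 1 ∧ (⋂ n, C n (dig α)) ⊆ UF F.1} := by
      ext α
      simp only [Set.mem_ofPred_eq, Set.mem_iInter, Set.mem_iUnion]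
      rw [null_iff (hcomp α) hs]
      constructor
      · rintro ⟨⟨h1, h2⟩, h3⟩ j
        obtain ⟨F, h4, h5⟩ := h3 j
        exact ⟨⟨F, h4⟩, h1, h2, h5⟩
      · intro h
        obtain ⟨F, h1, h2, h3⟩ := h 0
        refine ⟨⟨h1, h2⟩, fun j => ?_⟩
        obtain ⟨F, h1, h2, h3⟩ := h j
        exact ⟨F.1, F.2, h3⟩
    rw [h1]
    exact MeasurableSet.iInter fun j => MeasurableSet.iUnion fun F =>
      meas_subset C hC1 hC2 hC3 _ (isOpen_UF _)
  have hmain : {α : ℝ | Irrational α ∧ α ∈ Set.Ioo (0:ℝ) 1 ∧ t ≤ dimH (⋂ n, C n (dig α))} =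
      {α : ℝ | Irrational α ∧ α ∈ Set.Ioo (0:ℝ) 1} ∩
      ⋂ q : {q : ℚ // 0 < q ∧ ((Real.toNNReal q : ℝ≥0) : ℝ≥0∞) < t},
        {α : ℝ | (Irrational α ∧ α ∈ Set.Ioo (0:ℝ) 1) ∧
          μH[((q.1 : ℚ) : ℝ)] (⋂ n, C n (dig α)) = 0}ᶜ := by
    ext α
    simp only [Set.mem_ofPred_eq, Set.mem_inter_iff, Set.mem_iInter, Set.mem_compl_iff]
    constructor
    · rintro ⟨h1, h2, h3⟩
      refine ⟨⟨h1, h2⟩, fun q hq => ?_⟩
      have h4 := hausdorffMeasure_of_lt_dimH (q.2.2.trans_le h3)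
      rw [Real.coe_toNNReal _ (by exact_mod_cast q.2.1.le)] at h4
      rw [h4] at hq
      exact ENNReal.top_ne_zero hq.2
    · rintro ⟨⟨h1, h2⟩, h3⟩
      refine ⟨h1, h2, ?_⟩
      by_contra hcon
      push Not at hcon
      obtain ⟨q, hq0, hq1, hq2⟩ := ENNReal.lt_iff_exists_rat_btwn.1 hcon
      have hqpos : 0 < q := by
        rcases hq0.lt_or_eq with h | h
        · exact h
        · exfalso
          rw [← h] at hq1
          simp at hq1
      have h4 : μH[(q : ℝ)] (⋂ n, C n (dig α)) ≠ 0 := fun h0 => h3 ⟨q, hqpos, hq2⟩ ⟨⟨h1, h2⟩, h0⟩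
      have h5 : μH[((Real.toNNReal q : ℝ≥0) : ℝ)] (⋂ n, C n (dig α)) ≠ 0 := by
        rwa [Real.coe_toNNReal _ (by exact_mod_cast hq0)]
      have h6 := le_dimH_of_hausdorffMeasure_ne_zero h5
      exact absurd hq1 (not_lt.2 h6)
  rw [hmain]
  exact measurable_base.inter (MeasurableSet.iInter fun q =>
    (hnull _ (by exact_mod_cast q.2.1)).compl)

end Pool.Agent.W340.SD
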